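import Pool.Agent.KACG.Hill

open scoped ComplexConjugate ContDiff

noncomputable section

namespace Pool.Agent.KACG.H59

open Pool.Agent.KACG

theorem bnd_pos (g : ℝ → ℂ) (K : ℝ) (n : ℕ) (s : ℝ) (hs : 0 ≤ s)
    (hg : ∀ t, |t| ≤ |s| → ‖g t‖ ≤ K * |t| ^ n) :
    ‖∫ t in (0 : ℝ)..s, g t‖ ≤ K * |s| ^ (n + 1) / (n + 1) := by
  have h1 : ‖∫ t in (0 : ℝ)..s, g t‖ ≤ ∫ t in (0 : ℝ)..s, K * t ^ n := by
    apply intervalIntegral.norm_integral_le_of_norm_le hs
    · refine Filter.Eventually.of_forall fun t ht => ?_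
      have ht0 : 0 ≤ t := ht.1.le
      have h2 := hg t (by rw [abs_of_nonneg ht0, abs_of_nonneg hs]; exact ht.2)
      rwa [abs_of_nonneg ht0] at h2
    · exact (continuous_const.mul (continuous_pow n)).intervalIntegrable _ _
  refine h1.trans (le_of_eq ?_)
  rw [intervalIntegral.integral_const_mul, integral_pow, abs_of_nonneg hs]
  rw [zero_pow (Nat.succ_ne_zero n), sub_zero]
  ring

theorem bnd (g : ℝ → ℂ) (K : ℝ) (n : ℕ) (s : ℝ)
    (hg : ∀ t, |t| ≤ |s| → ‖g t‖ ≤ K * |t| ^ n) :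
    ‖∫ t in (0 : ℝ)..s, g t‖ ≤ K * |s| ^ (n + 1) / (n + 1) := by
  rcases le_total 0 s with hs | hs
  · exact bnd_pos g K n s hs hg
  · have h1 := bnd_pos (fun t => g (-t)) K n (-s) (by linarith) (by
      intro t ht
      rw [abs_neg] at ht
      have := hg (-t) (by rw [abs_neg]; exact ht)
      rwa [abs_neg] at this)
    rw [intervalIntegral.integral_comp_neg (fun t => g t), neg_zero, neg_neg,
      intervalIntegral.integral_symm, norm_neg, abs_neg] at h1
    exact h1

/-- the derivative of the iterate -/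
def dit (V : ℝ → ℝ) (E : ℂ) (f : ℝ → ℂ) (n : ℕ) (s : ℝ) : ℂ :=
  ∫ t in (0 : ℝ)..s, (((V t : ℝ) : ℂ) - E) * it V E f n t

theorem it_succ (V : ℝ → ℝ) (E : ℂ) (f : ℝ → ℂ) (n : ℕ) (s : ℝ) : it V E f (n + 1) s =
    ∫ t in (0 : ℝ)..s, ((s - t : ℝ) : ℂ) * (((V t : ℝ) : ℂ) - E) * it V E f n t := rfl

theorem hcV {V : ℝ → ℝ} (hV : Continuous V) (E : ℂ) : Continuous fun t : ℝ => ((V t : ℝ) : ℂ) - E :=
  (Complex.continuous_ofReal.comp hV).sub continuous_const

theorem it_split {V : ℝ → ℝ} (hV : Continuous V) (E : ℂ) {f : ℝ → ℂ} (n : ℕ)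
    (hc : Continuous (it V E f n)) (s : ℝ) : it V E f (n + 1) s =
    (s : ℂ) * dit V E f n s -
      ∫ t in (0 : ℝ)..s, (t : ℂ) * ((((V t : ℝ) : ℂ) - E) * it V E f n t) := by
  have hg : Continuous fun t : ℝ => (((V t : ℝ) : ℂ) - E) * it V E f n t := (hcV hV E).mul hc
  rw [it_succ, dit, ← intervalIntegral.integral_const_mul, ← intervalIntegral.integral_sub]
  · refine intervalIntegral.integral_congr fun t _ => ?_
    push_cast
    ring
  · exact (continuous_const.mul hg).intervalIntegrable _ _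
  · exact (Complex.continuous_ofReal.mul hg).intervalIntegrable _ _

theorem hasDeriv_int {g : ℝ → ℂ} (hg : Continuous g) (s : ℝ) :
    HasDerivAt (fun u => ∫ t in (0 : ℝ)..u, g t) (g s) s :=
  intervalIntegral.integral_hasDerivAt_right (hg.intervalIntegrable _ _)
    (hg.stronglyMeasurableAtFilter _ _) hg.continuousAt

theorem it_deriv {V : ℝ → ℝ} (hV : Continuous V) (E : ℂ) {f : ℝ → ℂ} (n : ℕ)
    (hc : Continuous (it V E f n)) (s : ℝ) :
    HasDerivAt (it V E f (n + 1)) (dit V E f n s) s := by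
  have hg : Continuous fun t : ℝ => (((V t : ℝ) : ℂ) - E) * it V E f n t := (hcV hV E).mul hc
  have e : it V E f (n + 1) = fun s : ℝ => (s : ℂ) * dit V E f n s -
      ∫ t in (0 : ℝ)..s, (t : ℂ) * ((((V t : ℝ) : ℂ) - E) * it V E f n t) := by
    funext s
    exact it_split hV E n hc s
  rw [e]
  have h1 : HasDerivAt (fun s : ℝ => (s : ℂ)) 1 s := by
    have := (hasDerivAt_id s).ofReal_comp
    simpa using this
  have h2 : HasDerivAt (dit V E f n) ((((V s : ℝ) : ℂ) - E) * it V E f n s) s := hasDeriv_int hg s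
  have h3 : HasDerivAt (fun u => ∫ t in (0 : ℝ)..u, (t : ℂ) * ((((V t : ℝ) : ℂ) - E) * it V E f n t))
      ((s : ℂ) * ((((V s : ℝ) : ℂ) - E) * it V E f n s)) s :=
    hasDeriv_int (g := fun t : ℝ => (t : ℂ) * ((((V t : ℝ) : ℂ) - E) * it V E f n t))
      (Complex.continuous_ofReal.mul hg) s
  have h4 := (h1.mul h2).sub h3
  refine h4.congr_deriv ?_
  ring

theorem it_cont {V : ℝ → ℝ} (hV : Continuous V) (E : ℂ) {f : ℝ → ℂ} (hf : Continuous f) (n : ℕ) :
    Continuous (it V E f n) := by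
  induction n with
  | zero => exact hf
  | succ n ih =>
    rw [continuous_iff_continuousAt]
    intro s
    exact (it_deriv hV E n ih s).continuousAt

theorem dit_deriv {V : ℝ → ℝ} (hV : Continuous V) (E : ℂ) {f : ℝ → ℂ} (hf : Continuous f) (n : ℕ)
    (s : ℝ) : HasDerivAt (dit V E f n) ((((V s : ℝ) : ℂ) - E) * it V E f n s) s :=
  hasDeriv_int ((hcV hV E).mul (it_cont hV E hf n)) s

/-- the bounds -/
theorem it_bound {V : ℝ → ℝ} (E : ℂ) {f : ℝ → ℂ} {R C A : ℝ} (hR : 0 ≤ R) (hC : 0 ≤ C)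
    (hA : ∀ t, |t| ≤ R → ‖f t‖ ≤ A) (hCV : ∀ t, |t| ≤ R → ‖((V t : ℝ) : ℂ) - E‖ ≤ C) (n : ℕ) :
    ∀ s, |s| ≤ R → ‖it V E f n s‖ ≤ A * (2 * C * R) ^ n / n.factorial * |s| ^ n := by
  have hA0 : 0 ≤ A := (norm_nonneg _).trans (hA 0 (by rw [abs_zero]; exact hR))
  induction n with
  | zero =>
    intro s hs
    rw [pow_zero, pow_zero, Nat.factorial_zero, Nat.cast_one, mul_one, div_one, mul_one]
    exact hA s hs
  | succ n ih =>
    intro s hs
    rw [it_succ]
    have h1 := bnd (fun t => ((s - t : ℝ) : ℂ) * (((V t : ℝ) : ℂ) - E) * it V E f n t)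
      (2 * R * C * (A * (2 * C * R) ^ n / n.factorial)) n s (by
        intro t ht
        have htR : |t| ≤ R := ht.trans hs
        have h2 : ‖((s - t : ℝ) : ℂ)‖ ≤ 2 * R := by
          rw [Complex.norm_real, Real.norm_eq_abs]
          calc |s - t| ≤ |s| + |t| := abs_sub s t
            _ ≤ 2 * R := by linarith
        rw [norm_mul, norm_mul]
        have h3 : ‖((s - t : ℝ) : ℂ)‖ * ‖((V t : ℝ) : ℂ) - E‖ ≤ 2 * R * C :=
          mul_le_mul h2 (hCV t htR) (norm_nonneg _) (by positivity)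
        calc ‖((s - t : ℝ) : ℂ)‖ * ‖((V t : ℝ) : ℂ) - E‖ * ‖it V E f n t‖ ≤
            2 * R * C * (A * (2 * C * R) ^ n / n.factorial * |t| ^ n) :=
              mul_le_mul h3 (ih t htR) (norm_nonneg _) (by positivity)
          _ = 2 * R * C * (A * (2 * C * R) ^ n / n.factorial) * |t| ^ n := by ring)
    refine h1.trans (le_of_eq ?_)
    rw [Nat.factorial_succ]
    push_cast
    have hn : ((n : ℝ) + 1) ≠ 0 := by positivity
    have hf : (n.factorial : ℝ) ≠ 0 := by positivity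
    field_simp
    ring

theorem it_bound' {V : ℝ → ℝ} (E : ℂ) {f : ℝ → ℂ} {R C A : ℝ} (hR : 0 ≤ R) (hC : 0 ≤ C)
    (hA : ∀ t, |t| ≤ R → ‖f t‖ ≤ A) (hCV : ∀ t, |t| ≤ R → ‖((V t : ℝ) : ℂ) - E‖ ≤ C) (n : ℕ)
    (s : ℝ) (hs : |s| ≤ R) : ‖it V E f n s‖ ≤ A * ((2 * C * R * R) ^ n / n.factorial) := by
  have hA0 : 0 ≤ A := (norm_nonneg _).trans (hA 0 (by rw [abs_zero]; exact hR))
  refine (it_bound E hR hC hA hCV n s hs).trans ?_
  have h1 : |s| ^ n ≤ R ^ n := pow_le_pow_left₀ (abs_nonneg s) hs n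
  calc A * (2 * C * R) ^ n / n.factorial * |s| ^ n ≤ A * (2 * C * R) ^ n / n.factorial * R ^ n :=
        mul_le_mul_of_nonneg_left h1 (by positivity)
    _ = A * ((2 * C * R * R) ^ n / n.factorial) := by
        rw [mul_pow (2 * C * R) R n]
        ring

theorem dit_bound {V : ℝ → ℝ} (E : ℂ) {f : ℝ → ℂ} {R C A : ℝ} (hR : 0 ≤ R) (hC : 0 ≤ C)
    (hA : ∀ t, |t| ≤ R → ‖f t‖ ≤ A) (hCV : ∀ t, |t| ≤ R → ‖((V t : ℝ) : ℂ) - E‖ ≤ C) (n : ℕ)
    (s : ℝ) (hs : |s| ≤ R) :
    ‖dit V E f n s‖ ≤ C * A * R * ((2 * C * R * R) ^ n / n.factorial) := by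
  have hA0 : 0 ≤ A := (norm_nonneg _).trans (hA 0 (by rw [abs_zero]; exact hR))
  have h1 := bnd (fun t => (((V t : ℝ) : ℂ) - E) * it V E f n t)
    (C * (A * ((2 * C * R * R) ^ n / n.factorial))) 0 s (by
      intro t ht
      have htR : |t| ≤ R := ht.trans hs
      rw [norm_mul, pow_zero, mul_one]
      exact mul_le_mul (hCV t htR) (it_bound' E hR hC hA hCV n t htR) (norm_nonneg _) hC)
  refine h1.trans ?_
  rw [Nat.cast_zero, zero_add, zero_add, pow_one, div_one]
  calc C * (A * ((2 * C * R * R) ^ n / n.factorial)) * |s| ≤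
      C * (A * ((2 * C * R * R) ^ n / n.factorial)) * R :=
        mul_le_mul_of_nonneg_left hs (by positivity)
    _ = C * A * R * ((2 * C * R * R) ^ n / n.factorial) := by ring

theorem exists_C {V : ℝ → ℝ} (hV : Continuous V) (E : ℂ) (R : ℝ) :
    ∃ C : ℝ, 0 ≤ C ∧ ∀ t, |t| ≤ R → ‖((V t : ℝ) : ℂ) - E‖ ≤ C := by
  obtain ⟨C, hC⟩ := (isCompact_Icc (a := -R) (b := R)).exists_bound_of_continuousOn
    (hcV hV E).continuousOn
  refine ⟨max C 0, le_max_right _ _, fun t ht => ?_⟩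
  exact (hC t (abs_le.1 ht)).trans (le_max_left _ _)

/-- the derivative of the series -/
def G1 (V : ℝ → ℝ) (E : ℂ) (f : ℝ → ℂ) (b : ℂ) : ℕ → ℝ → ℂ
  | 0 => fun _ => b
  | n + 1 => dit V E f n

/-- the second derivative of the series -/
def G2 (V : ℝ → ℝ) (E : ℂ) (f : ℝ → ℂ) : ℕ → ℝ → ℂ
  | 0 => fun _ => 0
  | n + 1 => fun s => (((V s : ℝ) : ℂ) - E) * it V E f n s

theorem vol : VolStmt := by
  intro V hV E a b
  obtain ⟨f, hf⟩ : ∃ f : ℝ → ℂ, f = fun s : ℝ => a + b * s := ⟨_, rfl⟩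
  rw [← hf]
  have hfc : Continuous f := by
    rw [hf]
    exact continuous_const.add (continuous_const.mul Complex.continuous_ofReal)
  have hfd : ∀ s : ℝ, HasDerivAt f b s := by
    intro s
    rw [hf]
    have h1 : HasDerivAt (fun s : ℝ => (s : ℂ)) 1 s := by
      have := (hasDerivAt_id s).ofReal_comp
      simpa using this
    have h2 := (h1.const_mul b).const_add a
    rwa [mul_one] at h2
  have hfb : ∀ R : ℝ, ∃ A : ℝ, 0 ≤ A ∧ ∀ t, |t| ≤ R → ‖f t‖ ≤ A := by
    intro R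
    obtain ⟨A, hA⟩ := (isCompact_Icc (a := -R) (b := R)).exists_bound_of_continuousOn
      hfc.continuousOn
    exact ⟨max A 0, le_max_right _ _, fun t ht => (hA t (abs_le.1 ht)).trans (le_max_left _ _)⟩
  have hsum : ∀ x : ℝ, Summable fun n : ℕ => x ^ n / (n.factorial : ℝ) := Real.summable_pow_div_factorial
  have hitsum : ∀ s : ℝ, Summable fun n => it V E f n s := by
    intro s
    obtain ⟨C, hC, hCV⟩ := exists_C hV E |s|
    obtain ⟨A, hA0, hA⟩ := hfb |s|
    exact Summable.of_norm_bounded ((hsum (2 * C * |s| * |s|)).mul_left A)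
      fun n => it_bound' E (abs_nonneg s) hC hA hCV n s le_rfl
  -- first derivative
  have hy1 : ∀ s : ℝ, HasDerivAt (sol V E f) (∑' n, G1 V E f b n s) s := by
    intro s
    obtain ⟨R, hR⟩ : ∃ R : ℝ, R = |s| + 1 := ⟨_, rfl⟩
    have hR0 : 0 ≤ R := by
      rw [hR]
      positivity
    obtain ⟨C, hC, hCV⟩ := exists_C hV E R
    obtain ⟨A, hA0, hA⟩ := hfb R
    obtain ⟨u, hu⟩ : ∃ u : ℕ → ℝ, u = fun n => match n with
      | 0 => ‖b‖
      | n + 1 => C * A * R * ((2 * C * R * R) ^ n / n.factorial) := ⟨_, rfl⟩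
    have husum : Summable u := by
      rw [← summable_nat_add_iff 1]
      have e : (fun n => u (n + 1)) = fun n : ℕ => C * A * R * ((2 * C * R * R) ^ n / n.factorial) := by
        funext n
        rw [hu]
      rw [e]
      exact (hsum _).mul_left _
    have hmem : ∀ y ∈ Set.Ioo (-R) R, |y| ≤ R := fun y hy => (abs_lt.2 hy).le
    refine hasDerivAt_tsum_of_isPreconnected (g := fun n => it V E f n)
      (g' := fun n s => G1 V E f b n s) (u := u) husum isOpen_Ioo
      (isPreconnected_Ioo (a := -R) (b := R)) ?_ ?_ (y₀ := 0) ?_ (hitsum 0) ?_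
    · intro n y _
      cases n with
      | zero => exact hfd y
      | succ n => exact it_deriv hV E n (it_cont hV E hfc n) y
    · intro n y hy
      cases n with
      | zero =>
        rw [hu]
        exact le_rfl
      | succ n =>
        rw [hu]
        exact dit_bound E hR0 hC hA hCV n y (hmem y hy)
    · rw [Set.mem_Ioo]
      have := abs_nonneg s
      constructor <;> linarith
    · rw [Set.mem_Ioo, ← abs_lt]
      linarith
  have hditsum : ∀ s : ℝ, Summable fun n => G1 V E f b n s := by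
    intro s
    obtain ⟨C, hC, hCV⟩ := exists_C hV E |s|
    obtain ⟨A, hA0, hA⟩ := hfb |s|
    rw [← summable_nat_add_iff 1]
    exact Summable.of_norm_bounded ((hsum (2 * C * |s| * |s|)).mul_left (C * A * |s|))
      fun n => dit_bound E (abs_nonneg s) hC hA hCV n s le_rfl
  have hderiv : deriv (sol V E f) = fun s => ∑' n, G1 V E f b n s := by
    funext s
    exact (hy1 s).deriv
  -- second derivative
  have hy2 : ∀ s : ℝ, HasDerivAt (deriv (sol V E f)) ((((V s : ℝ) : ℂ) - E) * sol V E f s) s := by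
    intro s
    rw [hderiv]
    obtain ⟨R, hR⟩ : ∃ R : ℝ, R = |s| + 1 := ⟨_, rfl⟩
    have hR0 : 0 ≤ R := by
      rw [hR]
      positivity
    obtain ⟨C, hC, hCV⟩ := exists_C hV E R
    obtain ⟨A, hA0, hA⟩ := hfb R
    obtain ⟨u, hu⟩ : ∃ u : ℕ → ℝ, u = fun n => match n with
      | 0 => 0
      | n + 1 => C * A * ((2 * C * R * R) ^ n / n.factorial) := ⟨_, rfl⟩
    have husum : Summable u := by
      rw [← summable_nat_add_iff 1]
      have e : (fun n => u (n + 1)) = fun n : ℕ => C * A * ((2 * C * R * R) ^ n / n.factorial) := by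
        funext n
        rw [hu]
      rw [e]
      exact (hsum _).mul_left _
    have hmem : ∀ y ∈ Set.Ioo (-R) R, |y| ≤ R := fun y hy => (abs_lt.2 hy).le
    have hG2 : ∑' n, G2 V E f n s = (((V s : ℝ) : ℂ) - E) * sol V E f s := by
      have h1 : Summable fun n => G2 V E f n s := by
        rw [← summable_nat_add_iff 1]
        exact (hitsum s).mul_left _
      rw [h1.tsum_eq_zero_add]
      change (0 : ℂ) + ∑' n, (((V s : ℝ) : ℂ) - E) * it V E f n s = _
      rw [zero_add, tsum_mul_left]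
      rfl
    rw [← hG2]
    refine hasDerivAt_tsum_of_isPreconnected (g := fun n => G1 V E f b n)
      (g' := fun n s => G2 V E f n s) (u := u) husum isOpen_Ioo
      (isPreconnected_Ioo (a := -R) (b := R)) ?_ ?_ (y₀ := 0) ?_ (hditsum 0) ?_
    · intro n y _
      cases n with
      | zero => exact hasDerivAt_const y b
      | succ n => exact dit_deriv hV E hfc n y
    · intro n y hy
      cases n with
      | zero =>
        rw [hu]
        change ‖(0 : ℂ)‖ ≤ 0
        rw [norm_zero]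
      | succ n =>
        rw [hu]
        change ‖(((V y : ℝ) : ℂ) - E) * it V E f n y‖ ≤ C * A * ((2 * C * R * R) ^ n / n.factorial)
        rw [norm_mul, mul_assoc]
        exact mul_le_mul (hCV y (hmem y hy)) (it_bound' E hR0 hC hA hCV n y (hmem y hy))
          (norm_nonneg _) hC
    · rw [Set.mem_Ioo]
      have := abs_nonneg s
      constructor <;> linarith
    · rw [Set.mem_Ioo, ← abs_lt]
      linarith
  have hz0 : deriv (sol V E f) 0 = b := by
    rw [hderiv]
    change ∑' n, G1 V E f b n 0 = b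
    rw [tsum_eq_single 0]
    · rfl
    · intro n hn
      obtain ⟨m, rfl⟩ := Nat.exists_eq_succ_of_ne_zero hn
      change dit V E f m 0 = 0
      exact intervalIntegral.integral_same
  have hsolc : Continuous (sol V E f) := by
    rw [continuous_iff_continuousAt]
    intro s
    exact (hy1 s).continuousAt
  refine ⟨⟨fun s => ?_, hy2⟩, ?_, hz0, fun s => ?_⟩
  · rw [hderiv]
    exact hy1 s
  · unfold sol
    rw [tsum_eq_single 0]
    · change f 0 = a
      rw [hf]
      simp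
    · intro n hn
      obtain ⟨m, rfl⟩ := Nat.exists_eq_succ_of_ne_zero hn
      change it V E f (m + 1) 0 = 0
      rw [it_succ]
      exact intervalIntegral.integral_same
  · have h1 : ∫ t in (0 : ℝ)..s, (((V t : ℝ) : ℂ) - E) * sol V E f t =
        deriv (sol V E f) s - deriv (sol V E f) 0 := by
      apply intervalIntegral.integral_eq_sub_of_hasDerivAt
      · intro x _
        exact hy2 x
      · exact ((hcV hV E).mul hsolc).intervalIntegrable _ _
    rw [h1, hz0]
    ring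

end Pool.Agent.KACG.H59
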