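import Pool.Agent.KACG.Slopes

open scoped ComplexConjugate ContDiff

noncomputable section

namespace Pool.Agent.KACG.H59

open Pool.Agent.KACG

theorem pot_smooth {κ : ℝ → ℝ} (hκ : ContDiff ℝ ∞ κ) (c g : ℝ) : ContDiff ℝ ∞ (pot κ c g) :=
  contDiff_const.mul ((hκ.sub contDiff_const).pow 2)

theorem pot_per {κ : ℝ → ℝ} {L : ℝ} (hκ : Function.Periodic κ L) (c g : ℝ) :
    Function.Periodic (pot κ c g) L := by
  intro s
  unfold pot
  rw [hκ s]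

theorem cnt_le (hU : UppStmt) (hLob : LobStmt) (hE : EigStmt) (hLow : LowStmt)
    (L : ℝ) (κ κ' : ℝ → ℝ) (c a a' : ℝ) (r r' : ℕ) (p : Fin r → ℝ)
    (p' : Fin r' → ℝ) (hW : Wells L κ c a r p) (hW' : Wells L κ' c a' r' p')
    (hd : ∀ g : ℝ, 0 ≤ g → disc L (pot κ c g) = disc L (pot κ' c g))
    (e : ℝ) (n : Fin r → ℕ) (n' : Fin r' → ℕ) (he : 0 < e)
    (hc : ∀ i, Cut |deriv κ (p i)| e (n i)) (hc' : ∀ i, Cut |deriv κ' (p' i)| e (n' i)) :
    ∑ i, n i ≤ ∑ i, n' i := by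
  obtain ⟨g₀, hg₀, hg⟩ := hU L κ c a r p hW e n he fun i => (hc i).1
  obtain ⟨g₁, hg₁, hg'⟩ := hLob L κ' c a' r' p' hW' e n' he fun i => (hc' i).2
  obtain ⟨g, hgm⟩ : ∃ g : ℝ, g = max g₀ g₁ := ⟨_, rfl⟩
  have hgp : 0 ≤ g := by
    rw [hgm]
    exact hg₀.le.trans (le_max_left _ _)
  obtain ⟨w, hw1, hw2⟩ := hg g (by rw [hgm]; exact le_max_left _ _)
  obtain ⟨f, hf1, hf2⟩ := hg' g (by rw [hgm]; exact le_max_right _ _)
  obtain ⟨Z, hZ1, hZ2⟩ := hE L (pot κ c g) (e * Real.sqrt g) (Σ i, Fin (n i)) w hW.pos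
    (pot_smooth hW.sm c g) (pot_per hW.per c g) hw1 hw2
  have h1 := hLow L (pot κ' c g) (e * Real.sqrt g) a' (Σ i, Fin (n' i)) f hW'.pos
    (pot_smooth hW'.sm c g) (pot_per hW'.per c g) hf1 hf2 Z (by
      intro z hz
      obtain ⟨h2, h3⟩ := hZ2 z hz
      refine ⟨h2, ?_⟩
      rw [← hd g hgp]
      exact h3)
  rw [hZ1, Fintype.card_sigma, Fintype.card_sigma] at h1
  simpa using h1

theorem cnt (hU : UppStmt) (hLob : LobStmt) (hE : EigStmt) (hLow : LowStmt) : CntStmt := by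
  intro L κ κ' c a a' r r' p p' hW hW' hd e n n' he hc hc'
  apply le_antisymm
  · exact cnt_le hU hLob hE hLow L κ κ' c a a' r r' p p' hW hW' hd e n n' he hc hc'
  · exact cnt_le hU hLob hE hLow L κ' κ c a' a r' r p' p hW' hW (fun g hg => (hd g hg).symm) e n' n
      he hc' hc

end Pool.Agent.KACG.H59
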