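import Pool.Agent.KACG.Slopes
import Pool.Agent.Helper95_KACG.WEK

open scoped ComplexConjugate ContDiff

noncomputable section

namespace Pool.Agent.KACG.H59

open Pool.Agent.KACG Filter Topology

theorem mass_smul (L : ℝ) (c : ℂ) (u : ℝ → ℂ) :
    mass L (fun s => c * u s) = ‖c‖ ^ 2 * mass L u := by
  unfold mass
  rw [← intervalIntegral.integral_const_mul]
  refine intervalIntegral.integral_congr fun s _ => ?_
  change ‖c * u s‖ ^ 2 = ‖c‖ ^ 2 * ‖u s‖ ^ 2
  rw [norm_mul, mul_pow]

theorem enr_smul (L : ℝ) (V : ℝ → ℝ) (c : ℂ) {u : ℝ → ℂ} (hu : ContDiff ℝ ∞ u) :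
    enr L V (fun s => c * u s) = ‖c‖ ^ 2 * enr L V u := by
  unfold enr
  rw [← intervalIntegral.integral_const_mul]
  refine intervalIntegral.integral_congr fun s _ => ?_
  change ‖deriv (fun s => c * u s) s‖ ^ 2 + V s * ‖c * u s‖ ^ 2 =
    ‖c‖ ^ 2 * (‖deriv u s‖ ^ 2 + V s * ‖u s‖ ^ 2)
  have h1 : DifferentiableAt ℝ u s := (hu.differentiable (by simp)).differentiableAt
  rw [deriv_const_mul c h1, norm_mul, norm_mul, mul_pow, mul_pow]
  ring

theorem mass_nonneg' {L : ℝ} (hL : 0 < L) (u : ℝ → ℂ) : 0 ≤ mass L u := by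
  unfold mass
  exact intervalIntegral.integral_nonneg hL.le fun s _ => by positivity

theorem enr_lower {L C : ℝ} {V : ℝ → ℝ} (hL : 0 < L) (hV : Continuous V) (hC : ∀ s, |V s| ≤ C)
    {u : ℝ → ℂ} (hu : ContDiff ℝ ∞ u) : -C * mass L u ≤ enr L V u := by
  have hcu := hu.continuous
  have hdu : Continuous (deriv u) := hu.continuous_deriv (by simp)
  unfold mass enr
  rw [← intervalIntegral.integral_const_mul]
  apply intervalIntegral.integral_mono_on hL.le
  · apply Continuous.intervalIntegrable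
    fun_prop
  · apply Continuous.intervalIntegrable
    fun_prop
  · intro s _
    have h1 := (abs_le.1 (hC s)).1
    have h2 : 0 ≤ ‖deriv u s‖ ^ 2 := by positivity
    have h3 : -C * ‖u s‖ ^ 2 ≤ V s * ‖u s‖ ^ 2 := mul_le_mul_of_nonneg_right h1 (by positivity)
    linarith

theorem tend {L : ℝ} (hL : 0 < L) {g : ℝ → ℂ} (hg : Continuous g) {u : ℕ → ℝ → ℂ} {v : ℝ → ℂ}
    (hu : ∀ n, Continuous (u n)) (hv : Continuous v) (huv : TendstoUniformly u v atTop) :
    Tendsto (fun n => ∫ s in (0 : ℝ)..L, u n s * g s) atTop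
      (𝓝 (∫ s in (0 : ℝ)..L, v s * g s)) := by
  obtain ⟨M, hM⟩ : ∃ M : ℝ, ∀ s ∈ Set.Icc (0 : ℝ) L, ‖g s‖ ≤ M := by
    obtain ⟨M, hM⟩ := (isCompact_Icc (a := (0 : ℝ)) (b := L)).exists_bound_of_continuousOn
      hg.continuousOn
    exact ⟨M, hM⟩
  have hM0 : 0 ≤ M := (norm_nonneg _).trans (hM 0 ⟨le_rfl, hL.le⟩)
  rw [Metric.tendsto_atTop]
  intro ε hε
  have hd : 0 < ε / (M * L + 1) := by positivity
  have h1 := (Metric.tendstoUniformly_iff.1 huv) _ hd
  obtain ⟨N, hN⟩ := eventually_atTop.1 h1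
  refine ⟨N, fun n hn => ?_⟩
  rw [dist_eq_norm, ← intervalIntegral.integral_sub]
  · have h2 : ‖∫ s in (0 : ℝ)..L, (u n s * g s - v s * g s)‖ ≤
        (ε / (M * L + 1) * M) * |L - 0| := by
      apply intervalIntegral.norm_integral_le_of_norm_le_const
      intro s hs
      rw [Set.uIoc_of_le hL.le] at hs
      rw [← sub_mul, norm_mul]
      have h3 : ‖u n s - v s‖ ≤ ε / (M * L + 1) := by
        have := hN n hn s
        rw [dist_comm, dist_eq_norm] at this
        exact this.le
      exact mul_le_mul h3 (hM s ⟨hs.1.le, hs.2⟩) (norm_nonneg _) hd.le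
    refine h2.trans_lt ?_
    rw [sub_zero, abs_of_pos hL]
    have h4 : ε / (M * L + 1) * M * L = ε * (M * L / (M * L + 1)) := by ring
    rw [h4]
    have h5 : M * L / (M * L + 1) < 1 := by
      rw [div_lt_one (by positivity)]
      linarith
    calc ε * (M * L / (M * L + 1)) < ε * 1 := mul_lt_mul_of_pos_left h5 hε
      _ = ε := mul_one ε
  · exact ((hu n).mul hg).intervalIntegrable _ _
  · exact (hv.mul hg).intervalIntegrable _ _

/-- the weak equation on a subspace -/
theorem wekX {L b lm : ℝ} {V : ℝ → ℝ} (P : (ℝ → ℂ) → Prop) (hP : ∀ u, P u → QP L b u)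
    (hPadd : ∀ u φ, P u → P φ → ∀ c : ℂ, P (fun s => u s + c * φ s)) (hL : 0 < L)
    (hV : ContDiff ℝ ∞ V) (h : ∀ u, P u → lm * mass L u ≤ enr L V u)
    {u : ℕ → ℝ → ℂ} {v : ℝ → ℂ} (hu : ∀ n, P (u n) ∧ mass L (u n) = 1)
    (hen : Tendsto (fun n => enr L V (u n)) atTop (𝓝 lm))
    (huv : TendstoUniformly u v atTop) (hv : Continuous v) {φ : ℝ → ℂ} (hφ' : P φ) :
    ∫ s in (0 : ℝ)..L, v s * conj (- deriv (deriv φ) s + (((V s : ℝ) : ℂ) - lm) * φ s) = 0 := by
  have hVc := hV.continuous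
  have hφ := hP φ hφ'
  have hcφ := hφ.1.continuous
  have hφ1 : ContDiff ℝ ∞ (deriv φ) := ((contDiff_infty_iff_deriv (𝕜 := ℝ)).1 hφ.1).2
  have hddφ : Continuous (deriv (deriv φ)) := hφ1.continuous_deriv (by simp)
  have huq : ∀ n, QP L b (u n) := fun n => hP _ (hu n).1
  have hS : ∀ n, 0 ≤ enr L V (u n) - lm * mass L (u n) := fun n => sub_nonneg.2 (h _ (hu n).1)
  have hSφ : 0 ≤ enr L V φ - lm * mass L φ := sub_nonneg.2 (h _ hφ')
  have hineq : ∀ n (c : ℂ), 0 ≤ (enr L V (u n) - lm * mass L (u n)) +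
      ‖c‖ ^ 2 * (enr L V φ - lm * mass L φ) + 2 * (conj c * H95.Bf L V lm (u n) φ).re := by
    intro n c
    rw [← H95.expand lm hVc (huq n).1 hφ.1 c]
    exact sub_nonneg.2 (h _ (hPadd _ _ (hu n).1 hφ' c))
  have hre : ∀ n, (H95.Bf L V lm (u n) φ).re ^ 2 ≤ (enr L V (u n) - lm * mass L (u n)) *
      (enr L V φ - lm * mass L φ) := by
    intro n
    apply H95.sq_le (hS n)
    intro t
    have h1 := hineq n (t : ℂ)
    rw [Complex.norm_real, Real.norm_eq_abs, sq_abs, Complex.conj_ofReal,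
      Complex.re_ofReal_mul] at h1
    exact h1
  have him : ∀ n, (H95.Bf L V lm (u n) φ).im ^ 2 ≤ (enr L V (u n) - lm * mass L (u n)) *
      (enr L V φ - lm * mass L φ) := by
    intro n
    apply H95.sq_le (hS n)
    intro t
    have h1 := hineq n ((t : ℂ) * Complex.I)
    have h2 : (conj ((t : ℂ) * Complex.I) * H95.Bf L V lm (u n) φ).re =
        t * (H95.Bf L V lm (u n) φ).im := by
      rw [map_mul, Complex.conj_ofReal, Complex.conj_I, mul_assoc, Complex.re_ofReal_mul]
      simp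
    rw [h2, norm_mul, Complex.norm_I, mul_one, Complex.norm_real, Real.norm_eq_abs, sq_abs] at h1
    exact h1
  have hlim : Tendsto (fun n => (enr L V (u n) - lm * mass L (u n)) *
      (enr L V φ - lm * mass L φ)) atTop (𝓝 0) := by
    have h1 : Tendsto (fun n => (enr L V (u n) - lm) * (enr L V φ - lm * mass L φ)) atTop
        (𝓝 ((lm - lm) * (enr L V φ - lm * mass L φ))) := (hen.sub_const lm).mul_const _
    rw [sub_self, zero_mul] at h1
    refine h1.congr fun n => ?_
    rw [(hu n).2, mul_one]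
  have hsqrt : Tendsto (fun n => Real.sqrt ((enr L V (u n) - lm * mass L (u n)) *
      (enr L V φ - lm * mass L φ))) atTop (𝓝 0) := by
    have := (Real.continuous_sqrt.tendsto 0).comp hlim
    rw [Real.sqrt_zero] at this
    exact this
  have hB : Tendsto (fun n => H95.Bf L V lm (u n) φ) atTop (𝓝 0) := by
    have h2 : Tendsto (fun n => 2 * Real.sqrt ((enr L V (u n) - lm * mass L (u n)) *
      (enr L V φ - lm * mass L φ))) atTop (𝓝 0) := by
      have := hsqrt.const_mul 2
      rwa [mul_zero] at this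
    refine squeeze_zero_norm (fun n => ?_) h2
    have h3 := Complex.norm_le_abs_re_add_abs_im (H95.Bf L V lm (u n) φ)
    have h4 := Real.abs_le_sqrt (hre n)
    have h5 := Real.abs_le_sqrt (him n)
    linarith
  have hg : Continuous (fun s => conj (- deriv (deriv φ) s + (((V s : ℝ) : ℂ) - lm) * φ s)) := by
    fun_prop
  have hT := tend hL hg (fun n => (huq n).1.continuous) hv huv
  have hT2 : Tendsto (fun n => ∫ s in (0 : ℝ)..L,
      u n s * conj (- deriv (deriv φ) s + (((V s : ℝ) : ℂ) - lm) * φ s)) atTop (𝓝 0) :=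
    hB.congr fun n => H95.parts lm hVc (huq n) hφ
  exact tendsto_nhds_unique hT hT2

theorem one (hTPQ : TpqStmt) (hARZ : ArzStmt) (hREG : RegStmt) : OneStmt := by
  classical
  intro L V E hL hV hper k e lm he horth hw
  obtain ⟨b, hb⟩ : ∃ b : ℝ, b = Real.pi / (2 * L) := ⟨_, rfl⟩
  have hTQ : ∀ u, TP L u ↔ QP L b u := fun u => by rw [hb]; exact hTPQ L u hL
  obtain ⟨P, hPd⟩ : ∃ P : (ℝ → ℂ) → Prop, P = fun u => QP L b u ∧
      ∀ j, ∫ s in (0 : ℝ)..L, u s * conj (e j s) = 0 := ⟨_, rfl⟩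
  have heq : ∀ j, QP L b (e j) := fun j => (hTQ _).1 (he j).1
  have hec : ∀ j, Continuous (fun s => conj (e j s)) := fun j =>
    Complex.continuous_conj.comp (heq j).1.continuous
  have hadd : ∀ u φ, QP L b u → QP L b φ → ∀ c : ℂ, QP L b (fun s => u s + c * φ s) := by
    intro u φ hu hφ c
    refine ⟨hu.1.add (contDiff_const.mul hφ.1), fun s => ?_⟩
    simp only
    rw [hu.2 s, hφ.2 s]
    ring
  have hinner : ∀ u φ, QP L b u → QP L b φ → ∀ (c : ℂ) j,
      ∫ s in (0 : ℝ)..L, (u s + c * φ s) * conj (e j s) =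
        (∫ s in (0 : ℝ)..L, u s * conj (e j s)) + c * ∫ s in (0 : ℝ)..L, φ s * conj (e j s) := by
    intro u φ hu hφ c j
    rw [← intervalIntegral.integral_const_mul, ← intervalIntegral.integral_add]
    · refine intervalIntegral.integral_congr fun s _ => ?_
      ring
    · exact (hu.1.continuous.mul (hec j)).intervalIntegrable _ _
    · exact (continuous_const.mul (hφ.1.continuous.mul (hec j))).intervalIntegrable _ _
  have hPadd : ∀ u φ, P u → P φ → ∀ c : ℂ, P (fun s => u s + c * φ s) := by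
    intro u φ hu hφ c
    rw [hPd] at hu hφ ⊢
    refine ⟨hadd u φ hu.1 hφ.1 c, fun j => ?_⟩
    rw [hinner u φ hu.1 hφ.1 c j, hu.2 j, hφ.2 j, mul_zero, add_zero]
  have hPsm : ∀ u, P u → ∀ c : ℂ, P (fun s => c * u s) := by
    intro u hu c
    rw [hPd] at hu ⊢
    refine ⟨⟨contDiff_const.mul hu.1.1, fun s => ?_⟩, fun j => ?_⟩
    · simp only
      rw [hu.1.2 s]
      ring
    · have : ∫ s in (0 : ℝ)..L, c * u s * conj (e j s) =
          c * ∫ s in (0 : ℝ)..L, u s * conj (e j s) := by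
        rw [← intervalIntegral.integral_const_mul]
        refine intervalIntegral.integral_congr fun s _ => ?_
        ring
      rw [this, hu.2 j, mul_zero]
  -- bound of the potential
  obtain ⟨C, hC⟩ : ∃ C : ℝ, ∀ s, |V s| ≤ C := by
    have hc := hper.compact_of_continuous hL.ne' hV.continuous
    obtain ⟨C, hC⟩ := hc.exists_bound_of_continuousOn (f := fun x : ℝ => x) continuousOn_id
    exact ⟨C, fun s => hC (V s) ⟨s, rfl⟩⟩
  have hlow : ∀ u, P u → -C * mass L u ≤ enr L V u := by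
    intro u hu
    rw [hPd] at hu
    exact enr_lower hL hV.continuous hC hu.1.1
  -- the infimum
  obtain ⟨T, hT⟩ : ∃ T : Set ℝ, T = {t : ℝ | ∃ u, P u ∧ mass L u = 1 ∧ t = enr L V u} := ⟨_, rfl⟩
  have hbdd : BddBelow T := by
    refine ⟨-C, ?_⟩
    rw [hT]
    rintro t ⟨u, hu, hm, rfl⟩
    have := hlow u hu
    rw [hm, mul_one] at this
    exact this
  have hnorm : ∀ u, P u → 0 < mass L u → enr L V u / mass L u ∈ T := by
    intro u hu hm
    rw [hT]
    refine ⟨fun s => ((1 / Real.sqrt (mass L u) : ℝ) : ℂ) * u s, hPsm u hu _, ?_, ?_⟩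
    · rw [mass_smul, Complex.norm_real, Real.norm_eq_abs, sq_abs, div_pow, one_pow,
        Real.sq_sqrt hm.le]
      field_simp
    · have hu' := hu
      rw [hPd] at hu'
      rw [enr_smul L V _ hu'.1.1, Complex.norm_real, Real.norm_eq_abs, sq_abs, div_pow, one_pow,
        Real.sq_sqrt hm.le]
      field_simp
  obtain ⟨w, hw1, hw2, hw3⟩ := hw
  have hwP : P w := by
    rw [hPd]
    exact ⟨(hTQ w).1 hw1, hw2⟩
  have hwm : 0 < mass L w := by
    by_contra hm
    have h0 : mass L w = 0 := le_antisymm (not_lt.1 hm) (mass_nonneg' hL w)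
    have h1 := hlow w hwP
    rw [h0, mul_zero] at h1 hw3
    linarith
  obtain ⟨μ, hμ⟩ : ∃ μ : ℝ, μ = sInf T := ⟨_, rfl⟩
  have hne : T.Nonempty := ⟨_, hnorm w hwP hwm⟩
  have hμE : μ < E := by
    have h1 : μ ≤ enr L V w / mass L w := by
      rw [hμ]
      exact csInf_le hbdd (hnorm w hwP hwm)
    have h2 : enr L V w / mass L w < E := by
      rw [div_lt_iff₀ hwm]
      exact hw3
    linarith
  have hmin : ∀ u, P u → μ * mass L u ≤ enr L V u := by
    intro u hu
    rcases (mass_nonneg' hL u).eq_or_lt with h0 | h0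
    · have h1 := hlow u hu
      rw [← h0, mul_zero] at h1
      rw [← h0, mul_zero]
      exact h1
    · have h1 : μ ≤ enr L V u / mass L u := by
        rw [hμ]
        exact csInf_le hbdd (hnorm u hu h0)
      rwa [le_div_iff₀ h0] at h1
  have hseq : ∀ n : ℕ, ∃ u, (P u ∧ mass L u = 1) ∧ enr L V u < μ + 1 / ((n : ℝ) + 1) := by
    intro n
    have h1 : sInf T < μ + 1 / ((n : ℝ) + 1) := by
      rw [← hμ]
      have : 0 < 1 / ((n : ℝ) + 1) := by positivity
      linarith
    obtain ⟨t, ht, ht2⟩ := exists_lt_of_csInf_lt hne h1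
    rw [hT] at ht
    obtain ⟨u, hu, hm, rfl⟩ := ht
    exact ⟨u, ⟨hu, hm⟩, ht2⟩
  choose u hu hue using hseq
  have hlim : Tendsto (fun n => enr L V (u n)) atTop (𝓝 μ) := by
    have h1 : Tendsto (fun n : ℕ => μ + 1 / ((n : ℝ) + 1)) atTop (𝓝 (μ + 0)) :=
      tendsto_const_nhds.add tendsto_one_div_add_atTop_nhds_zero_nat
    rw [add_zero] at h1
    refine tendsto_of_tendsto_of_tendsto_of_le_of_le tendsto_const_nhds h1 (fun n => ?_)
      (fun n => (hue n).le)
    have := hmin (u n) (hu n).1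
    rwa [(hu n).2, mul_one] at this
  have huQ : ∀ n, QP L b (u n) ∧ mass L (u n) = 1 := by
    intro n
    have := (hu n).1
    rw [hPd] at this
    exact ⟨this.1, (hu n).2⟩
  obtain ⟨kk, v, hkk, hvc, hvq, hvm, hunif⟩ := hARZ L V b (μ + 1) hL hV hper u huQ (by
    intro n
    refine (hue n).le.trans ?_
    have : 1 / ((n : ℝ) + 1) ≤ 1 := by
      rw [div_le_one (by positivity)]
      have : (0 : ℝ) ≤ n := Nat.cast_nonneg n
      linarith
    linarith)
  have horthv : ∀ j, ∫ s in (0 : ℝ)..L, v s * conj (e j s) = 0 := by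
    intro j
    have h1 := tend hL (hec j) (fun n => (huQ (kk n)).1.1.continuous) hvc hunif
    have h2 : (fun n => ∫ s in (0 : ℝ)..L, u (kk n) s * conj (e j s)) = fun _ => 0 := by
      funext n
      have := (hu (kk n)).1
      rw [hPd] at this
      exact this.2 j
    rw [h2] at h1
    exact tendsto_nhds_unique h1 tendsto_const_nhds
  -- the weak equation
  have hweakP : ∀ φ, P φ → ∫ s in (0 : ℝ)..L,
      v s * conj (- deriv (deriv φ) s + (((V s : ℝ) : ℂ) - μ) * φ s) = 0 := by
    intro φ hφ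
    exact wekX P (fun u hu => by rw [hPd] at hu; exact hu.1) hPadd hL hV hmin
      (fun n => hu (kk n)) (hlim.comp hkk.tendsto_atTop) hunif hvc hφ
  have hweake : ∀ j, ∫ s in (0 : ℝ)..L,
      v s * conj (- deriv (deriv (e j)) s + (((V s : ℝ) : ℂ) - μ) * e j s) = 0 := by
    intro j
    have h1 : ∀ s, deriv (deriv (e j)) s = (((V s : ℝ) : ℂ) - (lm j : ℝ)) * e j s := fun s =>
      ((he j).2.2 s).deriv
    have h2 : ∫ s in (0 : ℝ)..L,
        v s * conj (- deriv (deriv (e j)) s + (((V s : ℝ) : ℂ) - μ) * e j s) =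
        ((lm j - μ : ℝ) : ℂ) * ∫ s in (0 : ℝ)..L, v s * conj (e j s) := by
      rw [← intervalIntegral.integral_const_mul]
      refine intervalIntegral.integral_congr fun s _ => ?_
      change v s * conj (- deriv (deriv (e j)) s + (((V s : ℝ) : ℂ) - μ) * e j s) =
        ((lm j - μ : ℝ) : ℂ) * (v s * conj (e j s))
      rw [h1 s]
      simp only [map_add, map_neg, map_mul, map_sub, Complex.conj_ofReal]
      push_cast
      ring
    rw [h2, horthv j, mul_zero]
  -- induction over the eigenfunctions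
  have hLam : ∀ φ ψ, QP L b φ → QP L b ψ → ∀ c : ℂ,
      ∫ s in (0 : ℝ)..L, v s * conj (- deriv (deriv (fun s => φ s + c * ψ s)) s +
        (((V s : ℝ) : ℂ) - μ) * (φ s + c * ψ s)) =
      (∫ s in (0 : ℝ)..L, v s * conj (- deriv (deriv φ) s + (((V s : ℝ) : ℂ) - μ) * φ s)) +
      conj c * ∫ s in (0 : ℝ)..L,
        v s * conj (- deriv (deriv ψ) s + (((V s : ℝ) : ℂ) - μ) * ψ s) := by
    intro φ ψ hφ hψ c
    have hφ1 : ContDiff ℝ ∞ (deriv φ) := ((contDiff_infty_iff_deriv (𝕜 := ℝ)).1 hφ.1).2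
    have hψ1 : ContDiff ℝ ∞ (deriv ψ) := ((contDiff_infty_iff_deriv (𝕜 := ℝ)).1 hψ.1).2
    have hddφ : Continuous (deriv (deriv φ)) := hφ1.continuous_deriv (by simp)
    have hddψ : Continuous (deriv (deriv ψ)) := hψ1.continuous_deriv (by simp)
    have hcφ := hφ.1.continuous
    have hcψ := hψ.1.continuous
    have hVc := hV.continuous
    have hd : deriv (fun s => φ s + c * ψ s) = fun s => deriv φ s + c * deriv ψ s := by
      funext s
      have h1 : DifferentiableAt ℝ φ s := (hφ.1.differentiable (by simp)).differentiableAt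
      have h2 : DifferentiableAt ℝ ψ s := (hψ.1.differentiable (by simp)).differentiableAt
      rw [deriv_fun_add h1 (h2.const_mul c), deriv_const_mul c h2]
    have hdd : ∀ s, deriv (deriv (fun s => φ s + c * ψ s)) s =
        deriv (deriv φ) s + c * deriv (deriv ψ) s := by
      intro s
      rw [hd]
      have h1 : DifferentiableAt ℝ (deriv φ) s := (hφ1.differentiable (by simp)).differentiableAt
      have h2 : DifferentiableAt ℝ (deriv ψ) s := (hψ1.differentiable (by simp)).differentiableAt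
      rw [deriv_fun_add h1 (h2.const_mul c), deriv_const_mul c h2]
    rw [← intervalIntegral.integral_const_mul, ← intervalIntegral.integral_add]
    · refine intervalIntegral.integral_congr fun s _ => ?_
      change v s * conj (- deriv (deriv (fun s => φ s + c * ψ s)) s +
        (((V s : ℝ) : ℂ) - μ) * (φ s + c * ψ s)) =
        v s * conj (- deriv (deriv φ) s + (((V s : ℝ) : ℂ) - μ) * φ s) +
        conj c * (v s * conj (- deriv (deriv ψ) s + (((V s : ℝ) : ℂ) - μ) * ψ s))
      rw [hdd s]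
      simp only [map_add, map_neg, map_mul, map_sub, Complex.conj_ofReal]
      ring
    · apply Continuous.intervalIntegrable
      fun_prop
    · apply Continuous.intervalIntegrable
      fun_prop
  have hsub : ∀ (J : Finset (Fin k)) (φ : ℝ → ℂ), QP L b φ →
      (∀ j, j ∉ J → ∫ s in (0 : ℝ)..L, φ s * conj (e j s) = 0) →
      ∫ s in (0 : ℝ)..L, v s * conj (- deriv (deriv φ) s + (((V s : ℝ) : ℂ) - μ) * φ s) = 0 := by
    intro J
    induction J using Finset.induction_on with
    | empty =>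
      intro φ hφ h0
      apply hweakP
      rw [hPd]
      exact ⟨hφ, fun j => h0 j (Finset.notMem_empty j)⟩
    | insert i J hi ih =>
      intro φ hφ h0
      obtain ⟨a, ha⟩ : ∃ a : ℂ, a = ∫ s in (0 : ℝ)..L, φ s * conj (e i s) := ⟨_, rfl⟩
      have h1 := ih (fun s => φ s + (-a) * e i s) (hadd φ (e i) hφ (heq i) (-a)) (by
        intro j hj
        rw [hinner φ (e i) hφ (heq i) (-a) j, horth i j]
        by_cases hij : i = j
        · subst hij
          rw [if_pos rfl, ← ha]
          ring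
        · rw [if_neg hij, mul_zero, add_zero]
          apply h0
          rw [Finset.mem_insert, not_or]
          exact ⟨fun h' => hij h'.symm, hj⟩)
      rw [hLam φ (e i) hφ (heq i) (-a), hweake i, mul_zero, add_zero] at h1
      exact h1
  obtain ⟨hvs, hvsol⟩ := hREG L V b μ hL hV hper v hvc hvq (fun φ hφ =>
    hsub Finset.univ φ hφ fun j hj => absurd (Finset.mem_univ j) hj)
  exact ⟨v, μ, (hTQ v).2 ⟨hvs, hvq⟩, hvsol, hvm, horthv, hμE⟩

end Pool.Agent.KACG.H59
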